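import Pool.Agent.helper50.Zono.Bound

/-!
# Exact values of the least number of vertices of degree 3

The possible `n` are of the form `N (N - 1) + 2 - 2 D` with `0 ≤ D ≤ N - 2`. The value of `m n`
is determined for all `D ≤ N / 2` (three small cases excepted).
-/

namespace Pool.Agent.Results.MP_2929e7_co.ExactHalf

open Pool.Agent.helper50.Zono

open Pool.Agent.helper89.Zono (exact_zero exact_one exact_two upper lower_three exists_arr le_m)

theorem exact_three {N D : ℕ} (h6 : 6 ≤ D) (h1 : 3 * N < 4 * D + 6) (h2 : 2 * D ≤ N + 5)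
    (h3 : D + 2 ≤ N) : m (N * (N - 1) + 2 - 2 * D) = 2 * N + 6 := by
  refine le_antisymm ((upper (j := 3) (by omega) (by omega) (by omega)).trans (by omega)) ?_
  refine le_m (exists_arr (j := 3) (by omega) (by omega) (by omega)) fun N' a ha hn => ?_
  exact lower_three c1_holds ha h1 h3 (by omega) hn

theorem result :
    (∀ n, (ZClass n).Nonempty → ∃ N D, D + 2 ≤ N ∧ n = N * (N - 1) + 2 - 2 * D) ∧
    (∀ N, 4 ≤ N → m (N * (N - 1) + 2) = 2 * N) ∧
    (∀ N D, 1 ≤ D → 2 * D + 3 ≤ N → m (N * (N - 1) + 2 - 2 * D) = 2 * N + 2) ∧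
    (∀ N D, 3 ≤ D → 2 * D ≤ N → N < 2 * D + 3 → m (N * (N - 1) + 2 - 2 * D) = 2 * N + 4) ∧
    (∀ N D, 6 ≤ D → 3 * N < 4 * D + 6 → 2 * D ≤ N + 5 → D + 2 ≤ N →
      m (N * (N - 1) + 2 - 2 * D) = 2 * N + 6) :=
  ⟨fun _ hn => form_of_ne hn, fun _ hN => exact_zero c1_holds hN,
    fun _ _ h1 h2 => exact_one c1_holds h1 h2, fun _ _ h1 h2 h3 => exact_two c1_holds h1 h2 h3,
    fun _ _ h1 h2 h3 h4 => exact_three h1 h2 h3 h4⟩

end Pool.Agent.Results.MP_2929e7_co.ExactHalf
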