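import Pool.Agent.helper50.Zono.Bound

/-!
# A two-sided bound for the least number of vertices of degree 3, for every `n`

For every even `n ≥ 118`, written as `n = N (N - 1) + 2 - 2 D` with `0 ≤ D ≤ N - 2`, we have
`m n = 2 (N + g)` where `g` has the order of magnitude of `√(2 D + 4 - N)` (or is at most 1).
-/

namespace Pool.Agent.Results.MP_2929e7_co.TwoSided

open Pool.Agent.helper50.Zono

open Pool.Agent.helper89.Zono (upper exists_arr exact_zero card_add_sD)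

/-- lower bounds for `m` from lower bounds for arrangements -/
theorem exists_g {N D : ℕ} (hD : D + 2 ≤ N) (hne : (ZClass (N * (N - 1) + 2 - 2 * D)).Nonempty) :
    ∃ g, m (N * (N - 1) + 2 - 2 * D) = 2 * (N + g) ∧ 2 * D + 4 + 2 * g ≤ N + 9 * g * g := by
  rw [m_eq]
  obtain ⟨N₀, a₀, ha₀, hn₀⟩ := (zclass_nonempty_iff _).1 hne
  have hne' : {k | ∃ (N' : ℕ) (a : Fin N' → E3), IsArr a ∧
      (topes a).card = N * (N - 1) + 2 - 2 * D ∧ tri a = k}.Nonempty :=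
    ⟨tri a₀, N₀, a₀, ha₀, hn₀, rfl⟩
  obtain ⟨N', a, ha, hn, hk⟩ := Nat.sInf_mem hne'
  rw [← hk]
  exact two_sided ha hD hn

/-- the least `j` -/
theorem exists_j {N D j : ℕ} (hD : 1 ≤ D) (hN : D + 2 ≤ N) (h12 : 12 ≤ N)
    (hex : N = 12 → D ≤ 8) (hj : 1 ≤ j) (h2 : 2 * D + 4 ≤ N + j * j) :
    ∃ i, 1 ≤ i ∧ i ≤ j ∧ i * (i + 1) ≤ 2 * D ∧ 2 * D + 4 ≤ N + i * i := by
  classical
  have hex : ∃ i, 1 ≤ i ∧ 2 * D + 4 ≤ N + i * i := ⟨j, hj, h2⟩
  obtain ⟨i, ⟨hi1, hi2⟩, hmin⟩ : ∃ i, (1 ≤ i ∧ 2 * D + 4 ≤ N + i * i) ∧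
      ∀ k < i, ¬ (1 ≤ k ∧ 2 * D + 4 ≤ N + k * k) :=
    ⟨Nat.find hex, Nat.find_spec hex, fun k hk => Nat.find_min hex hk⟩
  refine ⟨i, hi1, ?_, ?_, hi2⟩
  · by_contra hcon
    exact hmin j (by omega) ⟨hj, h2⟩
  · obtain ⟨r, rfl⟩ : ∃ r, i = r + 1 := ⟨i - 1, by omega⟩
    have h6 : (r + 1) * (r + 1 + 1) = r * r + 3 * r + 2 := by ring
    rw [h6]
    rcases Nat.eq_zero_or_pos r with h0 | h0
    · subst h0; omega
    · have h4 := hmin r (by omega)
      have h5 : ¬ 2 * D + 4 ≤ N + r * r := fun h => h4 ⟨h0, h⟩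
      rcases le_or_gt 4 r with h7 | h7
      · have h8 : r * r ≤ D + 1 := by omega
        nlinarith
      · interval_cases r <;> omega

theorem result (n : ℕ) (hn : 118 ≤ n) :
    ((ZClass n).Nonempty ↔ Even n) ∧
    (Even n → ∃ N D g, D + 2 ≤ N ∧ n = N * (N - 1) + 2 - 2 * D ∧ m n = 2 * (N + g) ∧
      2 * D + 4 + 2 * g ≤ N + 9 * g * g ∧ ∀ j, 1 ≤ j → 2 * D + 4 ≤ N + j * j → g ≤ j) := by
  have main : Even n → (ZClass n).Nonempty ∧
      ∃ N D g, D + 2 ≤ N ∧ n = N * (N - 1) + 2 - 2 * D ∧ m n = 2 * (N + g) ∧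
      2 * D + 4 + 2 * g ≤ N + 9 * g * g ∧ ∀ j, 1 ≤ j → 2 * D + 4 ≤ N + j * j → g ≤ j := by
    intro he
    obtain ⟨N, D, hD, hND⟩ := form_of_even he (by omega : 8 ≤ n)
    have h12 : 12 ≤ N := by
      by_contra hcon
      have h1 : N * (N - 1) ≤ 11 * 10 := Nat.mul_le_mul (by omega) (by omega)
      omega
    have hex : N = 12 → D ≤ 8 := by
      rintro rfl
      omega
    have hup : (ZClass n).Nonempty ∧ ∀ j, 1 ≤ j → 2 * D + 4 ≤ N + j * j → m n ≤ 2 * (N + j) := by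
      rcases Nat.eq_zero_or_pos D with h0 | h0
      · subst h0
        rw [Nat.mul_zero, Nat.sub_zero] at hND
        rw [hND]
        refine ⟨?_, fun j _ _ => ?_⟩
        · obtain ⟨q, rfl⟩ : ∃ q, N = 4 + q := ⟨N - 4, by omega⟩
          obtain ⟨a, ha, hcard, -⟩ := Pool.Agent.helper89.Zono.family0 q
          refine (zclass_nonempty_iff _).2 ⟨_, a, ha, ?_⟩
          have e1 : 4 + q - 1 = 3 + q := by omega
          rw [hcard, e1]; ring
        · rw [exact_zero c1_holds (by omega)]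
          omega
      · rw [hND]
        refine ⟨?_, fun j hj h3 => ?_⟩
        · obtain ⟨i, hi1, -, hi3, hi4⟩ :=
            exists_j (j := D + 1) h0 hD h12 hex (by omega) (by nlinarith)
          obtain ⟨N', a, ha, hc⟩ := exists_arr hi1 hi3 hi4
          exact (zclass_nonempty_iff _).2 ⟨N', a, ha, hc⟩
        · obtain ⟨i, hi1, hi2, hi3, hi4⟩ := exists_j h0 hD h12 hex hj h3
          exact (upper hi1 hi3 hi4).trans (by omega)
    obtain ⟨g, hg1, hg2⟩ := exists_g hD (by rw [← hND]; exact hup.1)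
    rw [← hND] at hg1
    refine ⟨hup.1, N, D, g, hD, hND, hg1, hg2, fun j hj h3 => ?_⟩
    have := hup.2 j hj h3
    omega
  refine ⟨⟨fun hne => ?_, fun he => (main he).1⟩, fun he => (main he).2⟩
  obtain ⟨N, a, ha, hc⟩ := (zclass_nonempty_iff n).1 hne
  rw [← hc, card_topes ha.indep (by have := ha.three_le; omega)]
  exact ⟨_, two_mul _⟩

end Pool.Agent.Results.MP_2929e7_co.TwoSided
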